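import Pool.Agent.N536.MW.Conc

/-!
# Words whose degree lies in a set without two elements at a given distance
-/

set_option autoImplicit false

open Finset

namespace Pool.Agent.N536.SG

open Pool.Agent.N536.MW

lemma choose_succ_le {u a : ℕ} (h : u / 2 ≤ a) : u.choose (a + 1) ≤ u.choose a := by
  have h1 := Nat.choose_succ_right_eq u a
  have h2 : u.choose (a + 1) * (a + 1) ≤ u.choose a * (a + 1) := by
    rw [h1]
    exact Nat.mul_le_mul_left _ (by omega)
  exact Nat.le_of_mul_le_mul_right h2 (Nat.succ_pos a)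

/-- The weight of a set without two consecutive elements in the binomial distribution. -/
theorem indep_choose (u : ℕ) (S : ℕ → Prop) [DecidablePred S]
    (hS : ∀ a, a + 1 ≤ u → S a → ¬ S (a + 1)) :
    2 * ∑ a ∈ (range (u + 1)).filter S, u.choose a ≤ 2 ^ u + u.choose (u / 2) := by
  set T := (range (u + 1)).filter S with hT
  -- the set and its translate
  have h1 : ∑ a ∈ T, u.choose a + ∑ a ∈ T, u.choose (a + 1) ≤ 2 ^ u := by
    have h2 : ∑ a ∈ T, u.choose (a + 1) = ∑ a ∈ (T.image (· + 1)).filter (· ≤ u), u.choose a := by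
      have h3 : ∑ a ∈ T.image (· + 1), u.choose a = ∑ a ∈ T, u.choose (a + 1) :=
        sum_image (fun a _ b _ h => by simpa using h)
      rw [← h3, sum_filter]
      refine sum_congr rfl fun a _ => ?_
      split_ifs with h4
      · rfl
      · exact Nat.choose_eq_zero_of_lt (by omega)
    rw [h2, ← sum_union, ← Nat.sum_range_choose]
    · have h5 : T ∪ (T.image (· + 1)).filter (· ≤ u) ⊆ range (u + 1) := by
        intro a ha
        rw [mem_union] at ha
        rcases ha with ha | ha
        · exact (mem_filter.1 ha).1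
        · have := (mem_filter.1 ha).2
          rw [mem_range]
          omega
      exact sum_le_sum_of_subset (f := fun a => u.choose a) h5
    · rw [disjoint_left]
      intro a ha hb
      rw [mem_filter, mem_image] at hb
      obtain ⟨⟨c, hc, rfl⟩, hb⟩ := hb
      exact hS c hb (mem_filter.1 hc).2 (mem_filter.1 ha).2
  -- the decrements
  have h2 : (∑ a ∈ T, (u.choose a : ℤ)) - ∑ a ∈ T, (u.choose (a + 1) : ℤ) ≤ u.choose (u / 2) := by
    rw [← sum_sub_distrib]
    have h3 : ∑ a ∈ T, ((u.choose a : ℤ) - u.choose (a + 1)) ≤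
        ∑ a ∈ T.filter (fun a => u / 2 ≤ a), ((u.choose a : ℤ) - u.choose (a + 1)) := by
      rw [sum_filter (s := T) (p := fun a => u / 2 ≤ a)]
      refine sum_le_sum fun a _ => ?_
      split_ifs with h
      · exact le_rfl
      · have h4 := Nat.choose_le_succ_of_lt_half_left (n := u) (r := a) (by omega)
        have h5 : (u.choose a : ℤ) ≤ u.choose (a + 1) := by exact_mod_cast h4
        linarith
    refine h3.trans ?_
    have h4 : ∑ a ∈ T.filter (fun a => u / 2 ≤ a), ((u.choose a : ℤ) - u.choose (a + 1)) ≤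
        ∑ a ∈ Ico (u / 2) (u + 1), ((u.choose a : ℤ) - u.choose (a + 1)) := by
      refine sum_le_sum_of_subset_of_nonneg (fun a ha => ?_) (fun a ha _ => ?_)
      · rw [mem_filter, hT, mem_filter, mem_range] at ha
        rw [mem_Ico]
        exact ⟨ha.2, ha.1.1⟩
      · rw [mem_Ico] at ha
        have h5 : (u.choose (a + 1) : ℤ) ≤ u.choose a := by exact_mod_cast choose_succ_le ha.1
        linarith
    refine h4.trans (le_of_eq ?_)
    have h5 := Finset.sum_Ico_sub (fun a => (u.choose a : ℤ)) (show u / 2 ≤ u + 1 by omega)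
    have h6 : ∑ a ∈ Ico (u / 2) (u + 1), ((u.choose a : ℤ) - u.choose (a + 1)) =
        - ∑ a ∈ Ico (u / 2) (u + 1), ((u.choose (a + 1) : ℤ) - u.choose a) := by
      rw [← sum_neg_distrib]
      exact sum_congr rfl fun a _ => by ring
    rw [h6, h5, Nat.choose_succ_self]
    push_cast
    ring
  have h1' : (∑ a ∈ T, (u.choose a : ℤ)) + ∑ a ∈ T, (u.choose (a + 1) : ℤ) ≤ 2 ^ u := by
    exact_mod_cast h1
  have h3 : 2 * ∑ a ∈ T, (u.choose a : ℤ) ≤ 2 ^ u + u.choose (u / 2) := by linarith
  exact_mod_cast h3

variable {I : Type} [Fintype I] [DecidableEq I]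

/-- The mean value of the largest binomial probability. -/
theorem mean_middle {i j : I} (hij : i ≠ j) (n : ℕ) :
    (∑ g : Fin n → I, ((pl i j g).card.choose ((pl i j g).card / 2) : ℝ) /
        2 ^ (pl i j g).card) ≤
      (Fintype.card I : ℝ) ^ n * √((Fintype.card I : ℝ) / (2 * (n + 1))) := by
  have h2 : (∑ g : Fin n → I, ((pl i j g).card.choose ((pl i j g).card / 2) : ℝ) /
        2 ^ (pl i j g).card) ^ 2 ≤ (Fintype.card I : ℝ) ^ n *
        ∑ g : Fin n → I, (1 : ℝ) / ((pl i j g).card + 1) := by
    have h3 := sq_sum_le_card_mul_sum_sq (s := (univ : Finset (Fin n → I)))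
      (f := fun g : Fin n → I => ((pl i j g).card.choose ((pl i j g).card / 2) : ℝ) /
        2 ^ (pl i j g).card)
    refine h3.trans ?_
    rw [card_univ, Fintype.card_fun, Fintype.card_fin]
    push_cast
    refine mul_le_mul_of_nonneg_left (sum_le_sum fun g _ => ?_) (by positivity)
    rw [div_pow, div_le_div_iff₀ (by positivity) (by positivity), one_mul, ← pow_mul,
      mul_comm (pl i j g).card 2, pow_mul]
    have h4 := middle_bound (pl i j g).card
    have h5 : (((pl i j g).card : ℝ) + 1) *
        ((pl i j g).card.choose ((pl i j g).card / 2) : ℝ) ^ 2 ≤ 4 ^ (pl i j g).card := by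
      exact_mod_cast h4
    norm_num
    linarith
  have h3 := h2.trans (mul_le_mul_of_nonneg_left (sum_inv hij n) (by positivity))
  have h4 : (Fintype.card I : ℝ) ^ n * ((Fintype.card I : ℝ) ^ (n + 1) / (2 * (n + 1))) =
      ((Fintype.card I : ℝ) ^ n * √((Fintype.card I : ℝ) / (2 * (n + 1)))) ^ 2 := by
    rw [mul_pow, Real.sq_sqrt (by positivity)]
    ring
  rw [h4] at h3
  exact (abs_le_of_sq_le_sq' h3 (by positivity)).2

/-- **Words whose degree lies in a set without two elements at distance `δ j - δ i`.** -/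
theorem half_count (δ : I → ℤ) {i j : I} (hij : δ i ≠ δ j) (n : ℕ) (D : ℤ → Prop)
    [DecidablePred D] (hD : ∀ m, D m → ¬ D (m + (δ i - δ j))) :
    ((univ.filter fun g : Fin n → I => D (∑ k, δ (g k))).card : ℝ) ≤
      (Fintype.card I : ℝ) ^ n * (1 / 2 + 1 / 2 * √((Fintype.card I : ℝ) / (2 * (n + 1)))) := by
  have hij' : i ≠ j := fun h => hij (by rw [h])
  have key : ((univ.filter fun g : Fin n → I => D (∑ k, δ (g k))).card : ℝ) ≤
      ∑ g : Fin n → I, (1 / 2 + 1 / 2 * (((pl i j g).card.choose ((pl i j g).card / 2) : ℝ) /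
        2 ^ (pl i j g).card)) := by
    have q1 := card_pairs hij' (fun g : Fin n → I => D (∑ k, δ (g k)))
    have q2 : (2 : ℝ) ^ n * ((univ.filter fun g : Fin n → I => D (∑ k, δ (g k))).card : ℝ) ≤
        2 ^ n * ∑ g : Fin n → I, (1 / 2 + 1 / 2 *
          (((pl i j g).card.choose ((pl i j g).card / 2) : ℝ) / 2 ^ (pl i j g).card)) := by
      have q3 : (2 : ℝ) ^ n * ((univ.filter fun g : Fin n → I => D (∑ k, δ (g k))).card : ℝ) =
          ∑ g : Fin n → I, (((univ.filter fun R : Finset (Fin n) =>
            D (∑ k, δ (reset i j R g k))).card : ℕ) : ℝ) := by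
        rw [← Nat.cast_sum, q1]
        push_cast
        rfl
      rw [q3, mul_sum]
      refine sum_le_sum fun g _ => ?_
      set u := (pl i j g).card with hu
      have h0 : u ≤ n := (card_le_univ _).trans (le_of_eq (Fintype.card_fin n))
      set c := ∑ k ∈ (pl i j g)ᶜ, δ (g k) + (u : ℤ) * δ j with hc
      -- the number of the sets `R`
      have h1 : (univ.filter fun R : Finset (Fin n) => D (∑ k, δ (reset i j R g k))).card =
          ∑ a ∈ (range (u + 1)).filter (fun a : ℕ => D (c + a * (δ i - δ j))),
            u.choose a * 2 ^ ((pl i j g)ᶜ).card := by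
        have h2 : (univ.filter fun R : Finset (Fin n) => D (∑ k, δ (reset i j R g k))) =
            ((range (u + 1)).filter (fun a : ℕ => D (c + a * (δ i - δ j)))).biUnion fun a =>
              univ.filter fun R : Finset (Fin n) => (pl i j g ∩ R).card = a := by
          ext R
          simp only [mem_filter, mem_univ, true_and, mem_biUnion, mem_range]
          rw [sum_reset]
          constructor
          · intro h
            exact ⟨_, ⟨Nat.lt_succ_of_le (card_le_card inter_subset_left), h⟩, rfl⟩
          · rintro ⟨a, ⟨_, ha⟩, rfl⟩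
            exact ha
        rw [h2, card_biUnion]
        · exact sum_congr rfl fun a _ => card_inter _ _
        · intro a _ b _ hab
          rw [Function.onFun, disjoint_left]
          intro R h3 h4
          rw [mem_filter] at h3 h4
          exact hab (h3.2.symm.trans h4.2)
      have h2 := indep_choose u (fun a : ℕ => D (c + a * (δ i - δ j))) (by
        intro a _ ha hb
        have h5 := hD _ ha
        apply h5
        have e1 : c + a * (δ i - δ j) + (δ i - δ j) = c + ((a + 1 : ℕ) : ℤ) * (δ i - δ j) := by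
          push_cast
          ring
        rw [e1]
        exact hb)
      rw [h1, ← sum_mul, card_compl, Fintype.card_fin]
      push_cast
      have h3 : (2 : ℝ) * (∑ a ∈ (range (u + 1)).filter (fun a : ℕ => D (c + a * (δ i - δ j))),
          (u.choose a : ℝ)) ≤ 2 ^ u + u.choose (u / 2) := by
        exact_mod_cast h2
      have h4 : (2 : ℝ) ^ n = 2 ^ u * 2 ^ (n - u) := by
        rw [← pow_add, Nat.add_sub_cancel' h0]
      rw [h4]
      have h5 : (2 : ℝ) ^ u * 2 ^ (n - u) * (1 / 2 + 1 / 2 * ((u.choose (u / 2) : ℝ) / 2 ^ u)) =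
          (1 / 2 * (2 ^ u + (u.choose (u / 2) : ℝ))) * 2 ^ (n - u) := by
        field_simp
      rw [h5]
      exact mul_le_mul_of_nonneg_right (by linarith) (by positivity)
    exact le_of_mul_le_mul_left q2 (by positivity)
  refine key.trans ?_
  rw [sum_add_distrib, sum_const, card_univ, Fintype.card_fun, Fintype.card_fin, nsmul_eq_mul,
    ← mul_sum]
  push_cast
  have h1 := mean_middle hij' n
  rw [mul_add]
  have h2 : (Fintype.card I : ℝ) ^ n * (1 / 2 * √((Fintype.card I : ℝ) / (2 * (n + 1)))) =
      1 / 2 * ((Fintype.card I : ℝ) ^ n * √((Fintype.card I : ℝ) / (2 * (n + 1)))) := by ring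
  rw [h2]
  linarith

/-- The number of the words of a given degree. -/
theorem single_count (δ : I → ℤ) {i j : I} (hij : δ i ≠ δ j) {n : ℕ} (hn : 0 < n) (t : ℤ) :
    ((univ.filter fun g : Fin n → I => ∑ k, δ (g k) = t).card : ℝ) ≤
      (Fintype.card I : ℝ) ^ n * √((Fintype.card I : ℝ) / (2 * (n + 1))) := by
  have hn' : (n : ℤ) ≠ 0 := by exact_mod_cast hn.ne'
  have h1 := count_le (fun x => (n : ℤ) * δ x - t) (i := i) (j := j) (by
    intro h
    apply hij
    have h2 : (n : ℤ) * (δ i - δ j) = 0 := by
      linarith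
    rcases mul_eq_zero.1 h2 with h3 | h3
    · exact absurd h3 hn'
    · linarith) n
  have h2 : (univ.filter fun g : Fin n → I => ∑ k, ((n : ℤ) * δ (g k) - t) = 0) =
      univ.filter fun g : Fin n → I => ∑ k, δ (g k) = t := by
    refine filter_congr fun g _ => ?_
    rw [sum_sub_distrib, ← mul_sum, sum_const, card_univ, Fintype.card_fin, nsmul_eq_mul,
      ← mul_sub, mul_eq_zero]
    constructor
    · rintro (h | h)
      · exact absurd h hn'
      · linarith
    · intro h
      right
      linarith
  rw [h2] at h1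
  set r : ℝ := ((univ.filter fun g : Fin n → I => ∑ k, δ (g k) = t).card : ℝ) with hr
  have h3 : r ^ 2 ≤ ((Fintype.card I : ℝ) ^ n * √((Fintype.card I : ℝ) / (2 * (n + 1)))) ^ 2 := by
    rw [mul_pow, Real.sq_sqrt (by positivity), mul_div_assoc', le_div_iff₀ (by positivity)]
    linarith
  exact (abs_le_of_sq_le_sq' h3 (by positivity)).2

end Pool.Agent.N536.SG
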