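import Pool.Agent.TH133.PW.EvDefs
import Pool.Agent.N103.OC.Defs

/-!
# Correspondences which separate the even from the odd cohomology in some degrees
-/

open CategoryTheory AlgebraicGeometry Finset

set_option autoImplicit false

universe u v

namespace Pool.Agent.N536.SG

open Pool.Agent.H914 VarClass Obj WeilCohomology Pool.Agent.TH133.PW Pool.Agent.N103.OC
  Pool.Agent.H447 Filter

section Alg

variable {K : Type*} {V : Type*} [Field K] [AddCommGroup V] [Module K V]

/-- For all even `i` and odd `j` in `D`, `y` in `gr i` and `y'` in `gr j` some linear combination `φ` of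
the operators in `S`, which may depend on `y` and `y'`, satisfies `φ y = y` and `φ y' = 0`. -/
def SeparatesOn (gr : ℕ → Submodule K V) (D : Set ℕ) (S : Set (V →ₗ[K] V)) : Prop :=
  ∀ i ∈ D, ∀ j ∈ D, Even i → Odd j → ∀ y ∈ gr i, ∀ y' ∈ gr j,
    ∃ φ ∈ Submodule.span K S, φ y = y ∧ φ y' = 0

/-- The operator `P` satisfies a polynomial equation `f(P) = 0` on the `gr m` with `m ∈ D` even and
`g(P) = 0` on the `gr m` with `m ∈ D` odd, where `f` and `g` are coprime: it has no common eigenvalue, in
an algebraic closure, on the former and the latter. -/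
def NoCommonEigenvalue (gr : ℕ → Submodule K V) (D : Set ℕ) (P : Module.End K V) : Prop :=
  ∃ f g : Polynomial K, IsCoprime f g ∧
    (∀ m ∈ D, Even m → ∀ x ∈ gr m, Polynomial.aeval P f x = 0) ∧
    ∀ m ∈ D, Odd m → ∀ x ∈ gr m, Polynomial.aeval P g x = 0

/-- Some linear combination of the operators in `S` has no common eigenvalue on the sum of the `gr m`
with `m ∈ D` even and on the sum of those with `m ∈ D` odd. -/
def SomeNoCommon (gr : ℕ → Submodule K V) (D : Set ℕ) (S : Set (V →ₗ[K] V)) : Prop :=
  ∃ P ∈ Submodule.span K S, NoCommonEigenvalue gr D P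

end Alg

variable {k : Type u} [Field k] {𝒱 : VarClass k} {ops : CycleOps 𝒱}

/-- The algebraic correspondences separate the even from the odd cohomology classes of `Y` in the
degrees in `D`: for all `y` in `H^i(Y)`, `i ∈ D` even, and `y'` in `H^j(Y)`, `j ∈ D` odd, there is a
combination `φ`, with coefficients in the coefficient field `K` of the cohomology, of cycles of
codimension `dim Y` on `Y × Y`, which may depend on `y` and `y'`, with `φ(y) = y` and `φ(y') = 0`. -/
def ParityOn (W : WeilCohomology.{u, v} ops) (Y : 𝒱.Obj) (D : Set ℕ) : Prop :=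
  SeparatesOn (W.gr Y) D (cycleOperators W Y Y.dim)

/-- One combination `P` of cycles of codimension `dim Y` on `Y × Y` has no common eigenvalue on the sum
of the `H^m(Y)` with `m ∈ D` even and on the sum of those with `m ∈ D` odd. -/
def OneOperator (W : WeilCohomology.{u, v} ops) (Y : 𝒱.Obj) (D : Set ℕ) : Prop :=
  SomeNoCommon (W.gr Y) D (cycleOperators W Y Y.dim)

open Classical in
/-- The sum of the Betti numbers `b_m(Y)` over the `m` in `D`. -/
noncomputable def bettiOn (W : WeilCohomology.{u, v} ops) (Y : 𝒱.Obj) (D : Set ℕ) : ℕ :=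
  ∑ m ∈ (range (2 * Y.dim + 1)).filter (· ∈ D), W.betti Y m

/-- The dimension of the whole cohomology of `Y`. -/
noncomputable def totalBetti (W : WeilCohomology.{u, v} ops) (Y : 𝒱.Obj) : ℕ :=
  ∑ m ∈ range (2 * Y.dim + 1), W.betti Y m

/-- There is a set `D` of degrees in which the even and the odd classes of `Y` are separated, and the
degrees in `D` contain at least the share `a` of the cohomology of `Y`. -/
def HasShare (W : WeilCohomology.{u, v} ops) (Y : 𝒱.Obj) (a : ℝ) : Prop :=
  ∃ D, ParityOn W Y D ∧ a * totalBetti W Y ≤ bettiOn W Y D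

/-- The even and the odd classes of `Y` are separated in `r + 1` successive degrees, which have
distance at least `r` from `0` and from `2 dim Y`. -/
def HasWindow (W : WeilCohomology.{u, v} ops) (Y : 𝒱.Obj) (r : ℕ) : Prop :=
  ∃ m, r ≤ m ∧ m + 2 * r ≤ 2 * Y.dim ∧ ParityOn W Y (Set.Icc m (m + r))

/-- The set `D` does not contain two elements `m`, `m + p` between `a` and `b`. -/
def NoPairAt (p a b : ℕ) (D : Set ℕ) : Prop := ∀ m, a ≤ m → m + p ≤ b → m ∈ D → m + p ∉ D

/-- There is an odd number `p < 2 d`, `d = dim X`, such that for all `n ≥ 1` and all sets `D` of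
degrees in which the even and the odd classes of `X^n` are separated: no `m` and `m + p` between `2 d`
and `2 n d - 2 d` are both in `D`, and the degrees in `D` contain at most the share
`1 / 2 + (4 d + 1) √(b(X) / (2 (n + 1)))` of the cohomology of `X^n`. -/
def HalfBound (W : WeilCohomology.{u, v} ops) (X : 𝒱.Obj) : Prop :=
  ∃ p, Odd p ∧ p < 2 * X.dim ∧ ∀ n ≥ 1, ∀ D, ParityOn W (pw X n) D →
    NoPairAt p (2 * X.dim) (2 * (pw X n).dim - 2 * X.dim) D ∧
    (bettiOn W (pw X n) D : ℝ) ≤
      (1 / 2 + (4 * X.dim + 1) * √((totalBetti W X : ℝ) / (2 * (n + 1)))) * totalBetti W (pw X n)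

/-- The sign conjecture for all varieties follows from the share `1 / 2 + f(b(Y))` for all `Y`, if
`f(y) √(log y)` tends to infinity. -/
def SignFromShares (W : WeilCohomology.{u, v} ops) : Prop :=
  ∀ f : ℕ → ℝ, Tendsto (fun y : ℕ => f y * √(Real.log y)) atTop atTop →
    (∀ Y : 𝒱.Obj, HasShare W Y (1 / 2 + f (totalBetti W Y))) → ∀ Y : 𝒱.Obj, SignStd W Y

/-- The sign conjecture for all varieties is equivalent to the share `1 / 2 + ε` for all `Y`, where
`0 < ε ≤ 1 / 2`. -/
def SignIffShare (W : WeilCohomology.{u, v} ops) : Prop :=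
  ∀ ε : ℝ, 0 < ε → ε ≤ 1 / 2 →
    ((∀ Y : 𝒱.Obj, SignStd W Y) ↔ ∀ Y : 𝒱.Obj, HasShare W Y (1 / 2 + ε))

/-- The sign conjecture for all varieties follows from windows of `r(dim Y) + 1` degrees for all `Y` of
dimension at least `n₀`, if `r` tends to infinity. -/
def SignFromWindows (W : WeilCohomology.{u, v} ops) : Prop :=
  ∀ r : ℕ → ℕ, Tendsto r atTop atTop → ∀ n₀ : ℕ,
    (∀ Y : 𝒱.Obj, n₀ ≤ Y.dim → HasWindow W Y (r Y.dim)) → ∀ Y : 𝒱.Obj, SignStd W Y

end Pool.Agent.N536.SG
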