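import Pool.Agent.N536.SG.Geo
import Pool.Agent.N536.SG.Comb
import Pool.Agent.N536.SG.Defs
import Pool.Agent.N132.OS.Betti

/-!
# The Betti numbers of a power in terms of words
-/

set_option autoImplicit false

open CategoryTheory AlgebraicGeometry Finset TensorProduct

universe u v

namespace Pool.Agent.N536.SG

open Pool.Agent.H914 VarClass Obj WeilCohomology Pool.Agent.N103.OC Pool.Agent.TH133.PW
  Pool.Agent.H447

variable {k : Type u} [Field k] {𝒱 : VarClass k} {ops : CycleOps 𝒱}
  {W : WeilCohomology.{u, v} ops} {X Y Z : 𝒱.Obj}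

lemma pw_dim' (X : 𝒱.Obj) (n : ℕ) : (pw X (n + 1)).dim = (n + 1) * X.dim := pw_dim X n

lemma sum_antidiag (a c m : ℕ) : ∑ p ∈ HasAntidiagonal.antidiagonal m,
    (if a = p.1 then 1 else 0) * (if c = p.2 then 1 else 0) = if a + c = m then 1 else 0 := by
  have h1 : ∀ p ∈ HasAntidiagonal.antidiagonal m,
      (if a = p.1 then 1 else 0) * (if c = p.2 then 1 else 0) = if (a, c) = p then 1 else 0 := by
    rintro ⟨p, q⟩ _
    simp only [Prod.mk.injEq]
    split_ifs <;> simp_all
  rw [sum_congr rfl h1, sum_ite_eq]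
  simp only [HasAntidiagonal.mem_antidiagonal]

/-- **The Betti numbers of the powers.** -/
theorem betti_words (W : WeilCohomology.{u, v} ops) (X : 𝒱.Obj) :
    ∃ (N : ℕ) (δ : Fin N → ℕ), (∀ m, W.betti X m = (univ.filter fun s => δ s = m).card) ∧
      ∀ n m, W.betti (pw X (n + 1)) m =
        (univ.filter fun g : Fin (n + 1) → Fin N => ∑ k, δ (g k) = m).card := by
  classical
  obtain ⟨N, b, δ, hb⟩ := Pool.Agent.N132.OS.exists_basis W X
  have h0 : ∀ m, W.betti X m = (univ.filter fun s => δ s = m).card := by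
    intro m
    rw [WeilCohomology.betti, Pool.Agent.N132.OS.finrank_of_basis (W.isInternal X) b δ hb m,
      Fintype.card_subtype]
  refine ⟨N, δ, h0, fun n => ?_⟩
  induction n with
  | zero =>
    intro m
    have e1 : pw X (0 + 1) = X := rfl
    rw [e1, h0, card_filter, card_filter, ← (Equiv.funUnique (Fin 1) (Fin N)).sum_comp]
    refine sum_congr rfl fun g _ => ?_
    rw [Fin.sum_univ_one]
    rfl
  | succ n ih =>
    intro m
    have e1 : pw X (n + 1 + 1) = (pw X (n + 1)).prod X := rfl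
    rw [e1, Pool.Agent.N132.OS.betti_prod, card_filter,
      ← (Fin.consEquiv (fun _ : Fin (n + 2) => Fin N)).sum_comp, Fintype.sum_prod_type_right]
    have e2 : ∀ (g : Fin (n + 1) → Fin N) (x : Fin N),
        ∑ k, δ ((Fin.consEquiv (fun _ : Fin (n + 2) => Fin N)) (x, g) k) =
          ∑ k, δ (g k) + δ x := by
      intro g x
      rw [Fin.sum_univ_succ]
      simp [Fin.consEquiv, add_comm]
    have e3 : ∀ (g : Fin (n + 1) → Fin N) (x : Fin N),
        (if ∑ k, δ ((Fin.consEquiv (fun _ : Fin (n + 2) => Fin N)) (x, g) k) = m then 1 else 0) =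
        ∑ p ∈ HasAntidiagonal.antidiagonal m, (if ∑ k, δ (g k) = p.1 then 1 else 0) *
          (if δ x = p.2 then 1 else 0) := by
      intro g x
      rw [e2, sum_antidiag]
    rw [sum_congr rfl fun g _ => sum_congr rfl fun x _ => e3 g x]
    rw [sum_congr rfl fun g _ => sum_comm, sum_comm]
    refine sum_congr rfl fun p _ => ?_
    rw [ih, h0, card_filter, card_filter, sum_mul_sum]

/-- The sum of the Betti numbers of a power over a set. -/
lemma bettiOn_words {N : ℕ} {δ : Fin N → ℕ} {n : ℕ}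
    (h : ∀ m, W.betti (pw X (n + 1)) m =
        (univ.filter fun g : Fin (n + 1) → Fin N => ∑ k, δ (g k) = m).card) (D : Set ℕ)
    [DecidablePred (· ∈ D)] :
    bettiOn W (pw X (n + 1)) D =
      (univ.filter fun g : Fin (n + 1) → Fin N => ∑ k, δ (g k) ∈ D).card := by
  classical
  have h1 : ∀ g : Fin (n + 1) → Fin N, ∑ k, δ (g k) ∈ range (2 * (pw X (n + 1)).dim + 1) := by
    intro g
    by_contra hcon
    rw [mem_range] at hcon
    have h2 := h (∑ k, δ (g k))
    have h3 : W.gr (pw X (n + 1)) (∑ k, δ (g k)) = ⊥ := gr_bot_of_lt (by omega)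
    rw [WeilCohomology.betti, h3, finrank_bot] at h2
    have h4 := Finset.card_eq_zero.1 h2.symm
    have h5 : g ∈ univ.filter fun g' : Fin (n + 1) → Fin N => ∑ k, δ (g' k) = ∑ k, δ (g k) :=
      mem_filter.2 ⟨mem_univ _, rfl⟩
    rw [h4] at h5
    exact absurd h5 (notMem_empty _)
  unfold bettiOn
  rw [sum_congr rfl fun m _ => h m, ← card_biUnion]
  · congr 1
    ext g
    simp only [mem_biUnion, mem_filter, mem_univ, true_and]
    constructor
    · rintro ⟨m, ⟨_, h3⟩, rfl⟩
      exact h3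
    · intro h3
      exact ⟨_, ⟨h1 g, h3⟩, rfl⟩
  · intro m _ m' _ hmm
    rw [Function.onFun, disjoint_left]
    intro g h3 h4
    rw [mem_filter] at h3 h4
    exact hmm (h3.2.symm.trans h4.2)

lemma totalBetti_eq (W : WeilCohomology.{u, v} ops) (Y : 𝒱.Obj) :
    totalBetti W Y = bettiOn W Y Set.univ := by
  unfold totalBetti bettiOn
  simp

lemma totalBetti_words {N : ℕ} {δ : Fin N → ℕ} {n : ℕ}
    (h : ∀ m, W.betti (pw X (n + 1)) m =
        (univ.filter fun g : Fin (n + 1) → Fin N => ∑ k, δ (g k) = m).card) :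
    totalBetti W (pw X (n + 1)) = N ^ (n + 1) := by
  classical
  rw [totalBetti_eq, bettiOn_words h]
  simp

end Pool.Agent.N536.SG
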