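import Pool.Agent.N536.SG.Main
import Pool.Agent.H447R3.SpC

/-!
# The sign conjecture: powers, and the laws for all varieties
-/

set_option autoImplicit false

open CategoryTheory AlgebraicGeometry Finset TensorProduct

universe u v

namespace Pool.Agent.N536.SG

open Pool.Agent.H914 VarClass Obj WeilCohomology Pool.Agent.N103.OC Pool.Agent.TH133.PW
  Pool.Agent.H447

variable {k : Type u} [Field k] {𝒱 : VarClass k} {ops : CycleOps 𝒱}
  {W : WeilCohomology.{u, v} ops} {X Y Z : 𝒱.Obj}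

lemma par_mem_of_sign (h : SignStd W X) : par (W.isInternal X) ∈ ratOp W X :=
  mem_ratOp.2 (par_rop_of_sign h)

lemma sign_of_par_mem (h : par (W.isInternal X) ∈ ratOp W X) : SignStd W X := by
  have h1 := (rat_class W).smul (1 / 2 : ℚ) ((rat_class W).add ((rat_class W).one X) h)
  obtain ⟨z, hz, h2⟩ := h1
  refine ⟨z, hz, fun j a ha => ?_⟩
  rw [h2, LinearMap.smul_apply, LinearMap.add_apply, Module.End.one_apply, par,
    scal_apply _ _ ha]
  split_ifs with hj
  · rw [hj.neg_one_pow, one_smul, ← two_smul W.K a, smul_smul]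
    push_cast
    norm_num
  · rw [(Nat.not_even_iff_odd.1 hj).neg_one_pow, neg_one_smul, add_neg_cancel, smul_zero]

lemma signStd_prod (hX : SignStd W X) (hZ : SignStd W Z) : SignStd W (X.prod Z) := by
  apply sign_of_par_mem
  rw [par_prod]
  exact (rat_class W).ext (par_mem_of_sign hX) (par_mem_of_sign hZ)

lemma signStd_pw (hX : SignStd W X) (n : ℕ) : SignStd W (pw X (n + 1)) := by
  induction n with
  | zero => exact hX
  | succ n ih => exact signStd_prod ih hX

open Filter

/-- The law for all varieties. -/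
theorem law_all (W : WeilCohomology.{u, v} ops) (f : ℕ → ℝ)
    (hf : Tendsto (fun y : ℕ => f y * √(Real.log y)) atTop atTop)
    (hd : ∀ Y : 𝒱.Obj, DualCycles ops Y)
    (h : ∀ Y : 𝒱.Obj, ∃ D, ParityOn W Y D ∧
      (1 / 2 + f (totalBetti W Y)) * totalBetti W Y ≤ bettiOn W Y D) (X : 𝒱.Obj) :
    SignStd W X :=
  law f hf (pairs_of_dual (hd X)) (Frequently.of_forall fun n => h _)

lemma bettiOn_univ (W : WeilCohomology.{u, v} ops) (Y : 𝒱.Obj) :
    bettiOn W Y Set.univ = totalBetti W Y := (totalBetti_eq W Y).symm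

/-- One half is trivial: take the even or the odd degrees. -/
lemma half_trivial (W : WeilCohomology.{u, v} ops) (Y : 𝒱.Obj) :
    ∃ D, ParityOn W Y D ∧ totalBetti W Y ≤ 2 * bettiOn W Y D := by
  classical
  have h1 : totalBetti W Y = bettiOn W Y {m | Even m} + bettiOn W Y {m | Odd m} := by
    unfold totalBetti bettiOn
    rw [← sum_filter_add_sum_filter_not (range (2 * Y.dim + 1)) (fun m => Even m)]
    congr 1
    · refine sum_congr ?_ fun _ _ => rfl
      ext m
      simp
    · refine sum_congr ?_ fun _ _ => rfl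
      ext m
      simp
  by_cases h : bettiOn W Y {m | Odd m} ≤ bettiOn W Y {m | Even m}
  · exact ⟨{m | Even m}, fun i _ j hj _ hjo => absurd hj (Nat.not_even_iff_odd.2 hjo), by omega⟩
  · exact ⟨{m | Odd m}, fun i hi j _ hie _ => absurd hie (Nat.not_even_iff_odd.2 hi), by omega⟩

/-- The law with a constant share. -/
theorem law_const (W : WeilCohomology.{u, v} ops) (ε : ℝ) (h0 : 0 < ε) (h1 : ε ≤ 1 / 2)
    (hd : ∀ Y : 𝒱.Obj, DualCycles ops Y) :
    (∀ Y : 𝒱.Obj, SignStd W Y) ↔ ∀ Y : 𝒱.Obj, ∃ D, ParityOn W Y D ∧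
      (1 / 2 + ε) * totalBetti W Y ≤ bettiOn W Y D := by
  constructor
  · intro h Y
    refine ⟨Set.univ, parityOn_of_sign (h Y) _, ?_⟩
    rw [bettiOn_univ]
    have h2 : (0 : ℝ) ≤ totalBetti W Y := by positivity
    nlinarith
  · intro h X
    refine law_all W (fun _ => ε) ?_ hd h X
    apply Tendsto.const_mul_atTop h0
    have h2 : Tendsto (fun y : ℕ => Real.log (y : ℝ)) atTop atTop :=
      Real.tendsto_log_atTop.comp tendsto_natCast_atTop_atTop
    exact Real.tendsto_sqrt_atTop.comp h2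

/-- The window law for all varieties. -/
theorem window_all (W : WeilCohomology.{u, v} ops) {r : ℕ → ℕ} (hr : Tendsto r atTop atTop)
    (n₀ : ℕ) (hd : ∀ Y : 𝒱.Obj, DualCycles ops Y)
    (h : ∀ Y : 𝒱.Obj, n₀ ≤ Y.dim → ∃ m, r Y.dim ≤ m ∧ m + 2 * r Y.dim ≤ 2 * Y.dim ∧
      ParityOn W Y (Set.Icc m (m + r Y.dim))) (X : 𝒱.Obj) : SignStd W X := by
  by_contra hC
  obtain ⟨a, p, hp, hpd, -⟩ := no_pair (pairs_of_dual (hd X)) hC
  have hdim0 : 0 < X.dim := by
    have := hp.pos
    omega
  apply hC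
  apply window hr (pairs_of_dual (hd X))
  apply Eventually.frequently
  filter_upwards [eventually_ge_atTop (n₀ + 1)] with n hn
  obtain ⟨n, rfl⟩ := Nat.exists_eq_add_of_le' (show 1 ≤ n by omega)
  apply h
  rw [pw_dim]
  nlinarith

end Pool.Agent.N536.SG
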