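import Pool.Agent.N103.OC.Final
import Pool.Agent.TH133.PW.Ev

/-!
# Contraction of operators on a power which are scalar on some of the cohomology groups
-/

set_option autoImplicit false

open CategoryTheory AlgebraicGeometry Finset TensorProduct

universe u v

namespace Pool.Agent.N536.SG

open Pool.Agent.H914 VarClass Obj WeilCohomology Pool.Agent.N190.CB Pool.Agent.N103.OC
  Pool.Agent.TH133.PW Pool.Agent.H447

variable {k : Type u} [Field k] {𝒱 : VarClass k} {ops : CycleOps 𝒱}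
  {W : WeilCohomology.{u, v} ops} {X Y Z : 𝒱.Obj}

/-- Contraction with a pair of cycles, on single classes. -/
lemma pshift {Op : ∀ X : 𝒱.Obj, Set (Module.End W.K (W.H X))} (h : OpClass W Op)
    (hZ : Pairs W Z) {s : ℕ} (hs : s ≤ Z.dim) :
    ∃ E : W.H X →ₗ[W.K] W.H (X.prod Z), (∀ i, ∀ x ∈ W.gr X i, E x ∈ W.gr (X.prod Z) (i + 2 * s)) ∧
      ∀ A ∈ Op (X.prod Z), ∃ T ∈ Op X, ∀ (i : ℕ) (c : W.K), ∀ x ∈ W.gr X i, A (E x) = c • E x →
        T x = c • x := by
  obtain ⟨a, b, ha, hb, hab⟩ := hZ s hs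
  have hcl := W.cl_mem ha
  let E : W.H X →ₗ[W.K] W.H (X.prod Z) :=
    LinearMap.mulRight W.K (W.map (snd X Z) (W.cl Z a)) ∘ₗ (W.map (fst X Z)).toLinearMap
  have hE : ∀ x, E x = W.map (fst X Z) x * W.map (snd X Z) (W.cl Z a) := fun _ => rfl
  refine ⟨E, fun i x hx => ?_, fun A hA => ?_⟩
  · rw [hE]
    exact W.mul_mem (W.map_mem _ hx) (W.map_mem _ hcl)
  obtain ⟨ψ, hψ, h1⟩ := h.rank ha hb (by omega)
  obtain ⟨T, hT, h2⟩ := h.contr hA hψ
  have hrat : W.tr Z (W.cl Z b * W.cl Z a) =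
      ((Z.V.degCycle (ops.mul b a) : ℚ) : W.K) := by
    rw [← W.cl_mul]
    have hz : Z.IsCyc Z.dim (ops.mul b a) := by
      have := ops.mul_mem hb ha
      rwa [show Z.dim - s + s = Z.dim by omega] at this
    exact W.tr_cl hz
  have hstr : str W Z ψ = W.tr Z (W.cl Z b * W.cl Z a) := by
    have e1 : par (W.isInternal Z) * ψ = dualTensorHom W.K (W.H Z) (W.H Z)
        ((W.tr Z ∘ₗ LinearMap.mulLeft W.K (W.cl Z b)) ⊗ₜ W.cl Z a) := by
      apply LinearMap.ext
      intro x
      rw [Module.End.mul_apply, h1, dualTensorHom_apply, map_smul, par, scal_apply _ _ hcl,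
        pow_mul]
      simp
    rw [str_apply, e1, LinearMap.trace_eq_contract_apply, contractLeft_apply]
    rfl
  refine ⟨_, h.smul (Z.V.degCycle (ops.mul b a) : ℚ)⁻¹ hT, fun i c x hx hc => ?_⟩
  set τ := W.tr Z (W.cl Z b * W.cl Z a) with hτ
  have key : par (W.isInternal X) (T x) = (c * τ) • par (W.isInternal X) x := by
    rw [← sub_eq_zero]
    apply (Module.forall_dual_apply_eq_zero_iff W.K _).1
    intro l
    obtain ⟨f, hf⟩ := corr_bijective.2 (dualTensorHom W.K (W.H X) (W.H X) (l ⊗ₜ x))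
    have hf' : W.corr f = dualTensorHom W.K (W.H X) (W.H X) (l ⊗ₜ x) := hf
    have hstrf : ∀ B : Module.End W.K (W.H X), str W X (B * W.corr f) =
        l (par (W.isInternal X) (B x)) := by
      intro B
      have e1 : par (W.isInternal X) * (B * W.corr f) = dualTensorHom W.K (W.H X) (W.H X)
          (l ⊗ₜ par (W.isInternal X) (B x)) := by
        apply LinearMap.ext
        intro y
        rw [Module.End.mul_apply, Module.End.mul_apply, hf', dualTensorHom_apply,
          dualTensorHom_apply, map_smul, map_smul]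
      rw [str_apply, e1, LinearMap.trace_eq_contract_apply, contractLeft_apply]
    have h5 : A * extOp W (W.corr f) ψ = c • extOp W (W.corr f) ψ := by
      apply op_ext
      intro i' j' a' ha' b' hb'
      rw [Module.End.mul_apply, LinearMap.smul_apply, extOp_tmul, hf', dualTensorHom_apply, h1,
        map_smul, map_smul, smul_mul_assoc, mul_smul_comm, ← hE, map_smul, map_smul, hc,
        smul_comm c, smul_comm c]
    have h4 := h2 f
    rw [h5, map_smul, str_ext', hstr, hstrf T] at h4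
    have h6 := hstrf 1
    rw [one_mul, Module.End.one_apply] at h6
    rw [h6, smul_eq_mul] at h4
    rw [map_sub, map_smul, ← h4, smul_eq_mul]
    ring
  have key2 : T x = (c * τ) • x := by
    have hpp : ∀ z : W.H X, par (W.isInternal X) (par (W.isInternal X) z) = z := by
      intro z
      rw [← Module.End.mul_apply, par_mul_par, Module.End.one_apply]
    have h3 := congrArg (par (W.isInternal X)) key
    rw [map_smul, hpp, hpp] at h3
    exact h3
  rw [LinearMap.smul_apply, key2, smul_smul]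
  congr 1
  rw [hrat] at hab ⊢
  push_cast
  field_simp

/-- From a power to the variety. -/
lemma pw_pshift {Op : ∀ X : 𝒱.Obj, Set (Module.End W.K (W.H X))} (h : OpClass W Op)
    (hX : Pairs W X) (n : ℕ) : ∀ s ≤ n * X.dim,
    ∃ E : W.H X →ₗ[W.K] W.H (pw X (n + 1)),
      (∀ i, ∀ x ∈ W.gr X i, E x ∈ W.gr (pw X (n + 1)) (i + 2 * s)) ∧
      ∀ A ∈ Op (pw X (n + 1)), ∃ T ∈ Op X, ∀ (i : ℕ) (c : W.K), ∀ x ∈ W.gr X i,
        A (E x) = c • E x → T x = c • x := by
  induction n with
  | zero =>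
    intro s hs
    rw [zero_mul, Nat.le_zero] at hs
    subst hs
    exact ⟨LinearMap.id, fun i x hx => hx, fun A hA => ⟨A, hA, fun i c x hx hc => hc⟩⟩
  | succ n ih =>
    intro s hs
    rw [Nat.succ_mul] at hs
    obtain ⟨s1, s2, h1, h2, h3⟩ : ∃ s1 s2, s1 ≤ n * X.dim ∧ s2 ≤ X.dim ∧ s1 + s2 = s := by
      by_cases hle : s ≤ n * X.dim
      · exact ⟨s, 0, hle, Nat.zero_le _, rfl⟩
      · exact ⟨n * X.dim, s - n * X.dim, le_rfl, by omega, by omega⟩
    obtain ⟨E1, hE1, hT1⟩ := ih s1 h1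
    obtain ⟨E2, hE2, hT2⟩ := pshift (X := pw X (n + 1)) h hX h2
    refine ⟨E2 ∘ₗ E1, fun i x hx => ?_, fun A hA => ?_⟩
    · have := hE2 _ _ (hE1 i x hx)
      rwa [add_assoc, ← mul_add, h3] at this
    · obtain ⟨T1, hT1', h4⟩ := hT2 A hA
      obtain ⟨T, hT, h5⟩ := hT1 T1 hT1'
      exact ⟨T, hT, fun i c x hx hc => h5 i c x hx (h4 _ c _ (hE1 i x hx) hc)⟩

/-- The degrees `i` and `j` of `X` are separated by a combination of correspondences. -/
def SepDeg (W : WeilCohomology.{u, v} ops) (X : 𝒱.Obj) (i j : ℕ) : Prop :=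
  ∃ f ∈ KOp W X X 0, (∀ x ∈ W.gr X i, f x = x) ∧ ∀ x ∈ W.gr X j, f x = 0

lemma sepDeg_of {i j : ℕ} {T : Module.End W.K (W.H X)} (hT : T ∈ KOp W X X 0) {c c' : W.K}
    (hc : c ≠ c') (h1 : ∀ x ∈ W.gr X i, T x = c • x) (h2 : ∀ x ∈ W.gr X j, T x = c' • x) :
    SepDeg W X i j := by
  have hc' : c - c' ≠ 0 := sub_ne_zero.2 hc
  refine ⟨(c - c')⁻¹ • (T - c' • LinearMap.id), Submodule.smul_mem _ _
    (Submodule.sub_mem _ hT (Submodule.smul_mem _ _ (KOp.id X))), fun x hx => ?_, fun x hx => ?_⟩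
  · rw [LinearMap.smul_apply, LinearMap.sub_apply, LinearMap.smul_apply, LinearMap.id_apply,
      h1 x hx, ← sub_smul, smul_smul, inv_mul_cancel₀ hc', one_smul]
  · rw [LinearMap.smul_apply, LinearMap.sub_apply, LinearMap.smul_apply, LinearMap.id_apply,
      h2 x hx, sub_self, smul_zero]

/-- From single classes to all. -/
lemma sepDeg_of_pointwise {i j : ℕ} (h : ∀ y ∈ W.gr X i, ∀ y' ∈ W.gr X j,
    ∃ φ ∈ KOp W X X 0, φ y = y ∧ φ y' = 0) : SepDeg W X i j := by
  obtain ⟨c, hc, h1, h2⟩ := separate_two (A := KOp W X X 0) (KOp.id X)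
    (fun a ha b hb => KOp.cast (KOp.comp ha hb) (by ring)) (IsNoetherian.noetherian _)
    (IsNoetherian.noetherian _) (fun b hb y hy => kop_gr hb i hy) (fun b hb y hy => kop_gr hb j hy)
    h
  refine ⟨LinearMap.id - c, Submodule.sub_mem _ (KOp.id X) hc, fun x hx => ?_, fun x hx => ?_⟩
  · rw [LinearMap.sub_apply, LinearMap.id_apply, h1 x hx, sub_zero]
  · rw [LinearMap.sub_apply, LinearMap.id_apply, h2 x hx, sub_self]

/-- Transposition. -/
lemma exists_transpose {T : Module.End W.K (W.H X)} (hT : T ∈ KOp W X X 0) :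
    ∃ B ∈ KOp W X X 0, ∀ m ≤ 2 * X.dim, ∀ c : W.K, (∀ x ∈ W.gr X m, T x = c • x) →
      ∀ y ∈ W.gr X (2 * X.dim - m), B y = c • y := by
  obtain ⟨B, hB, h1⟩ := KOp.exists_adjoint hT
  have hB' : B ∈ KOp W X X 0 := KOp.cast hB (by ring)
  refine ⟨B, hB', fun m hm c hc y hy => ?_⟩
  rw [← sub_eq_zero]
  have hmem : B y - c • y ∈ W.gr X (2 * X.dim - m) :=
    Submodule.sub_mem _ (kop_gr hB' _ hy) (Submodule.smul_mem _ _ hy)
  apply nondeg_right
  intro b
  refine gr_induction (W.isInternal X) (p := fun b => W.tr X (b * (B y - c • y)) = 0) ?_ ?_ b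
  · intro l b hb
    by_cases hl : l = m
    · subst hl
      rw [mul_sub, map_sub, ← h1, hc b hb, smul_mul_assoc, mul_smul_comm, sub_self]
    · exact W.tr_eq_zero (W.mul_mem hb hmem) (by omega)
  · intro b b' hb hb'
    rw [add_mul, map_add, hb, hb', add_zero]

lemma sepDeg_dual {i j : ℕ} (hi : i ≤ 2 * X.dim) (hj : j ≤ 2 * X.dim)
    (h : SepDeg W X (2 * X.dim - i) (2 * X.dim - j)) : SepDeg W X i j := by
  obtain ⟨f, hf, h1, h2⟩ := h
  obtain ⟨B, hB, h3⟩ := exists_transpose hf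
  refine ⟨B, hB, fun x hx => ?_, fun x hx => ?_⟩
  · have := h3 (2 * X.dim - i) (Nat.sub_le _ _) 1 (fun y hy => by rw [h1 y hy, one_smul]) x
      (by rwa [show 2 * X.dim - (2 * X.dim - i) = i by omega])
    rwa [one_smul] at this
  · have := h3 (2 * X.dim - j) (Nat.sub_le _ _) 0 (fun y hy => by rw [h2 y hy, zero_smul]) x
      (by rwa [show 2 * X.dim - (2 * X.dim - j) = j by omega])
    rwa [zero_smul] at this

lemma kop_mul {f g : Module.End W.K (W.H X)} (hf : f ∈ KOp W X X 0) (hg : g ∈ KOp W X X 0) :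
    f * g ∈ KOp W X X 0 := KOp.cast (KOp.comp hf hg) (by ring)

lemma gr_bot_of_lt {j : ℕ} (hj : 2 * X.dim < j) : W.gr X j = ⊥ := W_hbd (X := X) j hj

/-- If all even degrees are separated from all odd degrees, the sign conjecture holds. -/
theorem signStd_of_sep (h : ∀ i ≤ 2 * X.dim, ∀ j ≤ 2 * X.dim, Even i → Odd j → SepDeg W X i j) :
    SignStd W X := by
  apply signStd_of_span
  have h1 : ∀ i ≤ 2 * X.dim, Even i → ∀ N : ℕ, ∃ g ∈ KOp W X X 0, (∀ x ∈ W.gr X i, g x = x) ∧
      ∀ j < N, Odd j → ∀ x ∈ W.gr X j, g x = 0 := by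
    intro i hi hie N
    induction N with
    | zero => exact ⟨LinearMap.id, KOp.id X, fun x _ => rfl, fun j hj => by omega⟩
    | succ N ih =>
      obtain ⟨g, hg, h2, h3⟩ := ih
      by_cases hN : Odd N ∧ N ≤ 2 * X.dim
      · obtain ⟨f, hf, h4, h5⟩ := h i hi N hN.2 hie hN.1
        refine ⟨g * f, kop_mul hg hf, fun x hx => ?_, fun j hj hjo x hx => ?_⟩
        · rw [Module.End.mul_apply, h4 x hx, h2 x hx]
        · rw [Module.End.mul_apply]
          rcases Nat.lt_succ_iff_lt_or_eq.1 hj with hj | rfl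
          · exact h3 j hj hjo _ (kop_gr hf j hx)
          · rw [h5 x hx, map_zero]
      · refine ⟨g, hg, h2, fun j hj hjo x hx => ?_⟩
        rcases Nat.lt_succ_iff_lt_or_eq.1 hj with hj | rfl
        · exact h3 j hj hjo x hx
        · have hj2 : 2 * X.dim < j := by
            by_contra hcon
            exact hN ⟨hjo, by omega⟩
          rw [gr_bot_of_lt hj2, Submodule.mem_bot] at hx
          rw [hx, map_zero]
  have h2 : ∀ M : ℕ, ∃ g ∈ KOp W X X 0, (∀ i < M, Even i → ∀ x ∈ W.gr X i, g x = x) ∧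
      ∀ j, Odd j → ∀ x ∈ W.gr X j, g x = 0 := by
    intro M
    induction M with
    | zero => exact ⟨0, Submodule.zero_mem _, fun i hi => by omega, fun j _ x _ => rfl⟩
    | succ M ih =>
      obtain ⟨p, hp, h3, h4⟩ := ih
      by_cases hM : Even M ∧ M ≤ 2 * X.dim
      · obtain ⟨g, hg, h5, h6⟩ := h1 M hM.2 hM.1 (2 * X.dim + 1)
        have h6' : ∀ j, Odd j → ∀ x ∈ W.gr X j, g x = 0 := by
          intro j hj x hx
          by_cases hj2 : 2 * X.dim < j
          · rw [gr_bot_of_lt hj2, Submodule.mem_bot] at hx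
            rw [hx, map_zero]
          · exact h6 j (by omega) hj x hx
        refine ⟨p + g - p * g, Submodule.sub_mem _ (Submodule.add_mem _ hp hg) (kop_mul hp hg),
          fun i hi hie x hx => ?_, fun j hj x hx => ?_⟩
        · rw [LinearMap.sub_apply, LinearMap.add_apply, Module.End.mul_apply]
          rcases Nat.lt_succ_iff_lt_or_eq.1 hi with hi | rfl
          · rw [h3 i hi hie _ (kop_gr hg i hx), h3 i hi hie x hx]
            abel
          · rw [h5 x hx]
            abel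
        · rw [LinearMap.sub_apply, LinearMap.add_apply, Module.End.mul_apply, h4 j hj x hx,
            h6' j hj x hx, map_zero]
          simp
      · refine ⟨p, hp, fun i hi hie x hx => ?_, h4⟩
        rcases Nat.lt_succ_iff_lt_or_eq.1 hi with hi | rfl
        · exact h3 i hi hie x hx
        · have hj2 : 2 * X.dim < i := by
            by_contra hcon
            exact hM ⟨hie, by omega⟩
          rw [gr_bot_of_lt hj2, Submodule.mem_bot] at hx
          rw [hx, map_zero]
  obtain ⟨g, hg, h3, h4⟩ := h2 (2 * X.dim + 1)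
  refine ⟨g, ?_, fun j a ha => ?_⟩
  · rw [span_cycleOperators0]
    exact hg
  · split_ifs with hj
    · by_cases hj2 : 2 * X.dim < j
      · rw [gr_bot_of_lt hj2, Submodule.mem_bot] at ha
        rw [ha, map_zero]
      · exact h3 j (by omega) hj a ha
    · exact h4 j (Nat.not_even_iff_odd.1 hj) a ha

end Pool.Agent.N536.SG
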