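import Pool.Agent.N536.SG.Cnt

/-!
# The law for the sign conjecture
-/

set_option autoImplicit false

open CategoryTheory AlgebraicGeometry Finset TensorProduct

universe u v

namespace Pool.Agent.N536.SG

open Pool.Agent.H914 VarClass Obj WeilCohomology Pool.Agent.N103.OC Pool.Agent.TH133.PW
  Pool.Agent.H447

variable {k : Type u} [Field k] {𝒱 : VarClass k} {ops : CycleOps 𝒱}
  {W : WeilCohomology.{u, v} ops} {X Y Z : 𝒱.Obj}

/-- One operator without common eigenvalues. -/
lemma parityOn_of_one {D : Set ℕ} {P : Module.End W.K (W.H Y)}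
    (hP : P ∈ Submodule.span W.K (cycleOperators W Y Y.dim))
    (h : NoCommonEigenvalue (W.gr Y) D P) : ParityOn W Y D := by
  obtain ⟨f, g, ⟨a, b, hab⟩, hf, hg⟩ := h
  intro i hi j hj hie hjo y hy y' hy'
  rw [span_cycleOperators0] at hP ⊢
  have hPk : P ∈ kAlg W Y := hP
  have hmem : ∀ q : Polynomial W.K, Polynomial.aeval P q ∈ KOp W Y Y 0 := by
    intro q
    have h1 : Polynomial.aeval P q ∈ kAlg W Y :=
      Algebra.adjoin_le (Set.singleton_subset_iff.2 hPk) (Polynomial.aeval_mem_adjoin_singleton _ P)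
    exact h1
  refine ⟨Polynomial.aeval P (b * g), hmem _, ?_, ?_⟩
  · have h1 : Polynomial.aeval P (a * f) y = 0 := by
      rw [map_mul, Module.End.mul_apply, hf i hi hie y hy, map_zero]
    have h2 : Polynomial.aeval P (a * f) y + Polynomial.aeval P (b * g) y = y := by
      rw [← LinearMap.add_apply, ← map_add, hab, map_one, Module.End.one_apply]
    rwa [h1, zero_add] at h2
  · rw [map_mul, Module.End.mul_apply, hg j hj hjo y' hy', map_zero]

/-- Some even and some odd degree are not separated. -/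
lemma exists_not_sep (hC : ¬ SignStd W X) : ∃ i j, i ≤ 2 * X.dim ∧ j ≤ 2 * X.dim ∧ Even i ∧ Odd j ∧
    ¬ SepDeg W X i j ∧ W.gr X i ≠ ⊥ ∧ W.gr X j ≠ ⊥ := by
  by_contra hcon
  apply hC
  apply signStd_of_sep
  intro i hi j hj hie hjo
  by_contra hs
  refine hcon ⟨i, j, hi, hj, hie, hjo, hs, fun hb => hs ?_, fun hb => hs ?_⟩
  · refine ⟨0, Submodule.zero_mem _, fun x hx => ?_, fun x _ => rfl⟩
    rw [hb, Submodule.mem_bot] at hx
    rw [hx, map_zero]
  · refine ⟨LinearMap.id, KOp.id X, fun x _ => rfl, fun x hx => ?_⟩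
    rw [hb, Submodule.mem_bot] at hx
    rw [hx, map_zero]

/-- **No two degrees at distance `p`.** -/
theorem no_pair (hX : Pairs W X) (hC : ¬ SignStd W X) : ∃ a p, Odd p ∧ p ≤ 2 * X.dim ∧
    W.gr X a ≠ ⊥ ∧ W.gr X (a + p) ≠ ⊥ ∧ ∀ (n : ℕ) (D : Set ℕ), ParityOn W (pw X (n + 1)) D →
      ∀ m, 2 * X.dim ≤ m → m + p ≤ n * (2 * X.dim) → m ∈ D → m + p ∉ D := by
  obtain ⟨i, j, hi, hj, hie, hjo, hs, hbi, hbj⟩ := exists_not_sep hC
  -- the main step
  have key : ∀ (n : ℕ) (D : Set ℕ), ParityOn W (pw X (n + 1)) D → ∀ m m' : ℕ,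
      2 * X.dim ≤ m → m ≤ n * (2 * X.dim) → 2 * X.dim ≤ m' → m' ≤ n * (2 * X.dim) →
      m' + i = m + j → m ∈ D → m' ∉ D := by
    intro n D hD m m' h1 h2 h3 h4 h5 h6 h7
    have h2' : m ≤ 2 * (n * X.dim) := by
      have : n * (2 * X.dim) = 2 * (n * X.dim) := by ring
      omega
    have h4' : m' ≤ 2 * (n * X.dim) := by
      have : n * (2 * X.dim) = 2 * (n * X.dim) := by ring
      omega
    rcases Nat.even_or_odd m with hm | hm
    · have hm' : Odd m' := by
        rcases hm with ⟨r, hr⟩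
        rcases hie with ⟨s, hs⟩
        rcases hjo with ⟨t, ht⟩
        rw [Nat.odd_iff]
        omega
      obtain ⟨s, hs'⟩ : ∃ s, m = i + 2 * s := ⟨(m - i) / 2, by
        rcases hm with ⟨r, hr⟩
        rcases hie with ⟨s, hs⟩
        omega⟩
      obtain ⟨E, hE, hT⟩ := pw_pshift (kop_class W) hX n s (by omega)
      apply hs
      apply sepDeg_of_pointwise
      intro y hy y' hy'
      have hy2 := hE i y hy
      have hy3 := hE j y' hy'
      rw [← hs'] at hy2
      rw [show j + 2 * s = m' by omega] at hy3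
      obtain ⟨φ, hφ, h8, h9⟩ := hD m h6 m' h7 hm hm' _ hy2 _ hy3
      rw [span_cycleOperators0] at hφ
      obtain ⟨T, hT', h10⟩ := hT φ hφ
      refine ⟨T, hT', ?_, ?_⟩
      · have := h10 i 1 y hy (by rw [h8, one_smul])
        rwa [one_smul] at this
      · have := h10 j 0 y' hy' (by rw [h9, zero_smul])
        rwa [zero_smul] at this
    · have hm' : Even m' := by
        rcases hm with ⟨r, hr⟩
        rcases hie with ⟨s, hs⟩
        rcases hjo with ⟨t, ht⟩
        rw [Nat.even_iff]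
        omega
      obtain ⟨s, hs'⟩ : ∃ s, m' = 2 * X.dim - i + 2 * s := ⟨(m' - (2 * X.dim - i)) / 2, by
        rcases hm' with ⟨r, hr⟩
        rcases hie with ⟨s, hs⟩
        omega⟩
      obtain ⟨E, hE, hT⟩ := pw_pshift (kop_class W) hX n s (by omega)
      apply hs
      apply sepDeg_dual hi hj
      apply sepDeg_of_pointwise
      intro y hy y' hy'
      have hy2 := hE (2 * X.dim - i) y hy
      have hy3 := hE (2 * X.dim - j) y' hy'
      rw [← hs'] at hy2
      rw [show 2 * X.dim - j + 2 * s = m by omega] at hy3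
      obtain ⟨φ, hφ, h8, h9⟩ := hD m' h7 m h6 hm' hm _ hy2 _ hy3
      rw [span_cycleOperators0] at hφ
      obtain ⟨T, hT', h10⟩ := hT φ hφ
      refine ⟨T, hT', ?_, ?_⟩
      · have := h10 (2 * X.dim - i) 1 y hy (by rw [h8, one_smul])
        rwa [one_smul] at this
      · have := h10 (2 * X.dim - j) 0 y' hy' (by rw [h9, zero_smul])
        rwa [zero_smul] at this
  rcases lt_or_ge i j with hij | hij
  · obtain ⟨p, rfl⟩ := Nat.exists_eq_add_of_le hij.le
    refine ⟨i, p, ?_, by omega, hbi, hbj, fun n D hD m h1 h2 h3 => ?_⟩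
    · rcases hie with ⟨s, hs⟩
      rcases hjo with ⟨t, ht⟩
      rw [Nat.odd_iff]
      omega
    · exact key n D hD m (m + p) h1 (by omega) (by omega) h2 (by omega) h3
  · obtain ⟨p, rfl⟩ := Nat.exists_eq_add_of_le hij
    refine ⟨j, p, ?_, by omega, hbj, hbi, fun n D hD m h1 h2 h3 h4 => ?_⟩
    · rcases hie with ⟨s, hs⟩
      rcases hjo with ⟨t, ht⟩
      rw [Nat.odd_iff]
      omega
    · exact key n D hD (m + p) m (by omega) h2 h1 (by omega) (by omega) h4 h3

/-- **The share of the degrees in which parity is separated.** -/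
theorem share_le (hX : Pairs W X) (hC : ¬ SignStd W X) (n : ℕ) (D : Set ℕ)
    (hD : ParityOn W (pw X (n + 1)) D) :
    (bettiOn W (pw X (n + 1)) D : ℝ) ≤
      (1 / 2 + (4 * X.dim + 1) * √((totalBetti W X : ℝ) / (2 * (n + 2)))) *
        totalBetti W (pw X (n + 1)) := by
  classical
  obtain ⟨a, p, hp, hpd, hba, hbp, hno⟩ := no_pair hX hC
  obtain ⟨N, δ, h0, hw⟩ := betti_words W X
  have hN : totalBetti W X = N := by
    have := totalBetti_words (n := 0) (hw 0)
    rw [pow_one] at this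
    exact this
  have hex : ∀ i, W.gr X i ≠ ⊥ → ∃ s, δ s = i := by
    intro i hi
    have h1 : W.betti X i ≠ 0 := fun h => hi (betti_eq_zero_iff.1 h)
    rw [h0, Finset.card_ne_zero] at h1
    obtain ⟨s, hs⟩ := h1
    exact ⟨s, (mem_filter.1 hs).2⟩
  obtain ⟨sa, hsa⟩ := hex a hba
  obtain ⟨sp, hsp⟩ := hex (a + p) hbp
  have hp0 : 0 < p := hp.pos
  set δ' : Fin N → ℤ := fun s => (δ s : ℤ) with hδ'
  have hne : δ' sp ≠ δ' sa := by
    rw [hδ']
    simp only [hsa, hsp]
    omega
  rw [bettiOn_words (hw n), totalBetti_words (hw n), hN]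
  set D' : ℤ → Prop := fun t => ∃ m : ℕ, (m : ℤ) = t ∧ m ∈ D ∧ 2 * X.dim ≤ m ∧
    m ≤ n * (2 * X.dim) with hD'
  have hcount := half_count δ' hne (n + 1) D' (by
    rintro _ ⟨m, rfl, h1, h2, h3⟩ ⟨m', h4, h5, h6, h7⟩
    rw [hδ'] at h4
    simp only [hsa, hsp] at h4
    have h8 : m' = m + p := by
      push_cast at h4
      omega
    subst h8
    exact hno n D hD m h2 h7 h1 h5)
  -- the remaining degrees
  have hdim : (pw X (n + 1)).dim = (n + 1) * X.dim := pw_dim X n
  set B : Finset ℕ := range (2 * X.dim) ∪ Ioc (n * (2 * X.dim)) ((n + 1) * (2 * X.dim)) with hB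
  have hBcard : (B.card : ℝ) ≤ 4 * X.dim := by
    have h1 : B.card ≤ 4 * X.dim := by
      refine (card_union_le _ _).trans ?_
      rw [card_range, Nat.card_Ioc]
      have : (n + 1) * (2 * X.dim) = n * (2 * X.dim) + 2 * X.dim := by ring
      omega
    exact_mod_cast h1
  have hsub : (univ.filter fun g : Fin (n + 1) → Fin N => ∑ k, δ (g k) ∈ D) ⊆
      (univ.filter fun g : Fin (n + 1) → Fin N => D' (∑ k, δ' (g k))) ∪
        B.biUnion fun t => univ.filter fun g : Fin (n + 1) → Fin N => ∑ k, δ' (g k) = (t : ℤ) := by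
    intro g hg
    rw [mem_filter] at hg
    have hcast : ∑ k, δ' (g k) = ((∑ k, δ (g k) : ℕ) : ℤ) := by
      rw [hδ']
      push_cast
      rfl
    have hle : ∑ k, δ (g k) ≤ (n + 1) * (2 * X.dim) := by
      by_contra hcon
      push Not at hcon
      have h2 := hw n (∑ k, δ (g k))
      have h3 : W.gr (pw X (n + 1)) (∑ k, δ (g k)) = ⊥ := gr_bot_of_lt (by
        rw [hdim]
        have : 2 * ((n + 1) * X.dim) = (n + 1) * (2 * X.dim) := by ring
        omega)
      rw [WeilCohomology.betti, h3, finrank_bot] at h2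
      have h4 := Finset.card_eq_zero.1 h2.symm
      have h5 : g ∈ univ.filter fun g' : Fin (n + 1) → Fin N =>
          ∑ k, δ (g' k) = ∑ k, δ (g k) := mem_filter.2 ⟨mem_univ _, rfl⟩
      rw [h4] at h5
      exact absurd h5 (notMem_empty _)
    rw [mem_union, mem_filter, mem_biUnion]
    by_cases h1 : 2 * X.dim ≤ ∑ k, δ (g k) ∧ ∑ k, δ (g k) ≤ n * (2 * X.dim)
    · left
      exact ⟨mem_univ _, _, hcast.symm, hg.2, h1.1, h1.2⟩
    · right
      refine ⟨∑ k, δ (g k), ?_, ?_⟩
      · rw [hB, mem_union, mem_range, mem_Ioc]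
        omega
      · rw [mem_filter]
        exact ⟨mem_univ _, hcast⟩
  have h1 := (card_le_card hsub).trans (card_union_le _ _)
  have h2 : ((univ.filter fun g : Fin (n + 1) → Fin N => ∑ k, δ (g k) ∈ D).card : ℝ) ≤
      ((univ.filter fun g : Fin (n + 1) → Fin N => D' (∑ k, δ' (g k))).card : ℝ) +
      ((B.biUnion fun t => univ.filter fun g : Fin (n + 1) → Fin N =>
        ∑ k, δ' (g k) = (t : ℤ)).card : ℝ) := by exact_mod_cast h1
  have h3 : ((B.biUnion fun t => univ.filter fun g : Fin (n + 1) → Fin N =>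
        ∑ k, δ' (g k) = (t : ℤ)).card : ℝ) ≤
      4 * X.dim * ((N : ℝ) ^ (n + 1) * √((N : ℝ) / (2 * (n + 2)))) := by
    have h4 : ((B.biUnion fun t => univ.filter fun g : Fin (n + 1) → Fin N =>
        ∑ k, δ' (g k) = (t : ℤ)).card : ℝ) ≤ ∑ t ∈ B,
        ((univ.filter fun g : Fin (n + 1) → Fin N => ∑ k, δ' (g k) = (t : ℤ)).card : ℝ) := by
      exact_mod_cast card_biUnion_le
    refine h4.trans ?_
    have h5 : ∀ t ∈ B, ((univ.filter fun g : Fin (n + 1) → Fin N =>
        ∑ k, δ' (g k) = (t : ℤ)).card : ℝ) ≤ (N : ℝ) ^ (n + 1) * √((N : ℝ) / (2 * (n + 2))) := by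
      intro t _
      have h6 := single_count δ' hne (Nat.succ_pos n) (t : ℤ)
      rw [Fintype.card_fin] at h6
      have h7 : (((n + 1 : ℕ) : ℝ) + 1) = (n : ℝ) + 2 := by
        push_cast
        ring
      rw [h7] at h6
      exact h6
    refine (sum_le_sum h5).trans ?_
    rw [sum_const, nsmul_eq_mul]
    exact mul_le_mul_of_nonneg_right hBcard (by positivity)
  rw [Fintype.card_fin] at hcount
  have h7 : (((n + 1 : ℕ) : ℝ) + 1) = (n : ℝ) + 2 := by
    push_cast
    ring
  rw [h7] at hcount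
  push_cast
  have h8 : (0 : ℝ) ≤ (N : ℝ) ^ (n + 1) * √((N : ℝ) / (2 * (n + 2))) := by positivity
  nlinarith [h2, h3, hcount, h8]

open Filter

/-- Every pair of nonzero degrees gives two basis elements. -/
lemma two_le_total (hC : ¬ SignStd W X) : 2 ≤ totalBetti W X := by
  obtain ⟨i, j, hi, hj, hie, hjo, -, hbi, hbj⟩ := exists_not_sep hC
  have hij : i ≠ j := by
    rintro rfl
    exact (Nat.not_even_iff_odd.2 hjo) hie
  have h1 : ∀ l, W.gr X l ≠ ⊥ → 1 ≤ W.betti X l := fun l hl =>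
    Nat.one_le_iff_ne_zero.2 fun h => hl (betti_eq_zero_iff.1 h)
  have h2 : ({i, j} : Finset ℕ) ⊆ range (2 * X.dim + 1) := by
    intro l hl
    rw [mem_insert, mem_singleton] at hl
    rw [mem_range]
    omega
  calc 2 ≤ W.betti X i + W.betti X j := Nat.add_le_add (h1 i hbi) (h1 j hbj)
    _ = ∑ l ∈ ({i, j} : Finset ℕ), W.betti X l := (sum_pair hij).symm
    _ ≤ _ := sum_le_sum_of_subset h2

lemma total_pow (W : WeilCohomology.{u, v} ops) (X : 𝒱.Obj) (n : ℕ) :
    totalBetti W (pw X (n + 1)) = totalBetti W X ^ (n + 1) := by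
  obtain ⟨N, δ, h0, hw⟩ := betti_words W X
  have hN : totalBetti W X = N := by
    have := totalBetti_words (n := 0) (hw 0)
    rw [pow_one] at this
    exact this
  rw [totalBetti_words (hw n), hN]

/-- **The law.** -/
theorem law (f : ℕ → ℝ) (hf : Tendsto (fun y : ℕ => f y * √(Real.log y)) atTop atTop)
    (hX : Pairs W X)
    (h : ∃ᶠ n in atTop, ∃ D, ParityOn W (pw X n) D ∧
      (1 / 2 + f (totalBetti W (pw X n))) * totalBetti W (pw X n) ≤
        bettiOn W (pw X n) D) : SignStd W X := by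
  by_contra hC
  set b := totalBetti W X with hb
  have hb2 : 2 ≤ b := two_le_total hC
  have h1 : Tendsto (fun n : ℕ => b ^ n) atTop atTop :=
    _root_.tendsto_pow_atTop_atTop_of_one_lt (by omega : 1 < b)
  have h2 := (hf.comp h1).eventually_gt_atTop ((4 * X.dim + 1) * √((b : ℝ) * Real.log b))
  obtain ⟨n', ⟨D, hD, h3⟩, hn, hn1⟩ := (h.and_eventually (h2.and (eventually_ge_atTop 1))).exists
  obtain ⟨n, rfl⟩ := Nat.exists_eq_add_of_le' hn1
  simp only [Function.comp_apply] at hn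
  have hlogb : 0 < Real.log b := Real.log_pos (by exact_mod_cast (by omega : 1 < b))
  have hbR : (0 : ℝ) < b := by exact_mod_cast (by omega : 0 < b)
  have h4 := share_le hX hC n D hD
  rw [total_pow, ← hb] at h3 h4
  have hBpos : (0 : ℝ) < ((b ^ (n + 1) : ℕ) : ℝ) := by positivity
  have h5 : f (b ^ (n + 1)) ≤ (4 * X.dim + 1) * √((b : ℝ) / (2 * (n + 2))) := by
    have h6 := h3.trans h4
    have h7 := le_of_mul_le_mul_right h6 hBpos
    linarith
  have hlog : Real.log ((b ^ (n + 1) : ℕ) : ℝ) = (n + 1) * Real.log b := by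
    push_cast
    rw [Real.log_pow]
    push_cast
    ring
  rw [hlog] at hn
  have h6 : f (b ^ (n + 1)) * √(((n : ℝ) + 1) * Real.log b) ≤
      (4 * X.dim + 1) * √((b : ℝ) * Real.log b) := by
    refine (mul_le_mul_of_nonneg_right h5 (Real.sqrt_nonneg _)).trans ?_
    rw [mul_assoc]
    refine mul_le_mul_of_nonneg_left ?_ (by positivity)
    rw [← Real.sqrt_mul (by positivity)]
    apply Real.sqrt_le_sqrt
    rw [div_mul_eq_mul_div, div_le_iff₀ (by positivity)]
    have h8 : 0 ≤ (b : ℝ) * Real.log b := by positivity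
    nlinarith
  linarith

/-- **A window.** -/
theorem window {r : ℕ → ℕ} (hr : Tendsto r atTop atTop) (hX : Pairs W X)
    (h : ∃ᶠ n in atTop, ∃ m, r (pw X n).dim ≤ m ∧
      m + 2 * r (pw X n).dim ≤ 2 * (pw X n).dim ∧
      ParityOn W (pw X n) (Set.Icc m (m + r (pw X n).dim))) : SignStd W X := by
  by_contra hC
  obtain ⟨a, p, hp, hpd, hba, hbp, hno⟩ := no_pair hX hC
  have hd : 0 < X.dim := by
    have := hp.pos
    omega
  obtain ⟨n₀, hn₀⟩ := (hr.eventually_ge_atTop (2 * X.dim)).exists_forall_of_atTop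
  obtain ⟨n', ⟨m, h1, h2, h3⟩, hn⟩ := (h.and_eventually (eventually_ge_atTop (n₀ + 1))).exists
  obtain ⟨n, rfl⟩ := Nat.exists_eq_add_of_le' (show 1 ≤ n' by omega)
  have hdim : (pw X (n + 1)).dim = (n + 1) * X.dim := pw_dim X n
  have hge : n₀ ≤ (pw X (n + 1)).dim := by
    rw [hdim]
    nlinarith
  have hr2 := hn₀ _ hge
  have h4 : n * (2 * X.dim) = 2 * (n * X.dim) := by ring
  have h5 : (n + 1) * X.dim = n * X.dim + X.dim := by ring
  refine hno n _ h3 m (by omega) (by omega) ?_ ?_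
  · rw [Set.mem_Icc]
    omega
  · rw [Set.mem_Icc]
    omega

/-- The even projector separates everything. -/
lemma parityOn_of_sign (h : SignStd W Y) (D : Set ℕ) : ParityOn W Y D := by
  obtain ⟨z, hz, hP⟩ := h
  intro i _ j _ hi hj y hy y' hy'
  exact ⟨_, Submodule.subset_span ⟨z, hz, rfl⟩, by rw [hP i y hy, if_pos hi],
    by rw [hP j y' hy', if_neg (Nat.not_even_iff_odd.2 hj)]⟩

end Pool.Agent.N536.SG
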